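import Pool.Agent.Helper19_RFK.Stmts

/-!
# Squad RFK, module COER: solution of the equation with right-hand side 1 (helper18)
-/

set_option autoImplicit false

open MeasureTheory Set Pool.Agent.Helper19_LogPot
open scoped ENNReal Topology

namespace Pool.Agent.RFK.H18

theorem log_one_div_int (E : Set ℂ) (u : ℂ → ℝ) (x : ℂ) :
    ∫ y in E, Real.log (1 / ‖x - y‖) * u y = -pot E u x := by
  unfold pot
  rw [← integral_neg]
  refine integral_congr_ae (Filter.Eventually.of_forall fun y => ?_)
  show Real.log (1 / ‖x - y‖) * u y = -(Real.log ‖x - y‖ * u y)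
  rw [one_div, Real.log_inv]
  ring

/-- module COER -/
theorem coer (hS : SpecStmt) (hO : OperStmt) : CoerStmt := by
  intro E t hE hb hv ht hne
  obtain ⟨T, hT, hsym, hcomp⟩ := hO E hE hb
  have hfin : volume E ≠ ∞ := hb.measure_lt_top.ne
  have : IsFiniteMeasure (volume.restrict E) := ⟨by
    rw [Measure.restrict_apply_univ]
    exact hfin.lt_top⟩
  have hone : MemLp (fun _ : ℂ => (1 : ℝ)) 2 (volume.restrict E) := memLp_const 1
  set b : Lp ℝ 2 (volume.restrict E) := hone.toLp with hbdef
  have hbae : (b : ℂ → ℝ) =ᵐ[volume.restrict E] fun _ => (1 : ℝ) := hone.coeFn_toLp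
  have hb0 : b ≠ 0 := by
    intro h0
    have h1 : (b : ℂ → ℝ) =ᵐ[volume.restrict E] 0 := (Lp.eq_zero_iff_ae_eq_zero).mp h0
    have h2 : ∀ᵐ _ ∂(volume.restrict E), False := by
      filter_upwards [hbae, h1] with x hx1 hx2
      rw [hx1] at hx2
      exact one_ne_zero hx2
    rw [Filter.eventually_false_iff_eq_bot, ae_eq_bot, Measure.restrict_eq_zero] at h2
    exact hv h2
  have heig : ∀ s ≤ t, ∀ x, T x = s • x → x = 0 := by
    intro s hs x hx
    by_contra hx0
    refine hne s hs ⟨x, Lp.memLp x, fun h => hx0 ((Lp.eq_zero_iff_ae_eq_zero).mpr h), ?_⟩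
    have h1 := hT x
    have h2 : (T x : ℂ → ℝ) =ᵐ[volume.restrict E] fun y => s * x y := by
      rw [hx]
      filter_upwards [Lp.coeFn_smul s x] with y hy
      rw [hy]
      rfl
    filter_upwards [h1, h2] with y hy1 hy2
    rw [log_one_div_int, ← hy1, hy2]
  obtain ⟨x, hx, hpos⟩ := hS (Lp ℝ 2 (volume.restrict E)) T t b hsym hcomp ht heig hb0
  refine ⟨x, Lp.memLp x, ?_, ?_⟩
  · have h1 := hT x
    have h2 : ((T x - t • x : Lp ℝ 2 (volume.restrict E)) : ℂ → ℝ) =ᵐ[volume.restrict E]
        fun y => T x y - t * x y := by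
      filter_upwards [Lp.coeFn_sub (T x) (t • x), Lp.coeFn_smul t x] with y hy1 hy2
      rw [hy1, Pi.sub_apply, hy2]
      rfl
    rw [hx] at h2
    filter_upwards [h1, h2, hbae] with y hy1 hy2 hy3
    rw [hy3, hy1] at hy2
    linarith
  · rw [L2.inner_def] at hpos
    have h3 : ∫ a, inner ℝ (x a) (b a) ∂(volume.restrict E) = ∫ a in E, x a := by
      refine integral_congr_ae ?_
      filter_upwards [hbae] with a ha
      rw [ha]
      simp
    rw [h3] at hpos
    exact hpos

end Pool.Agent.RFK.H18
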