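import Pool.Agent.Helper19_RFK.Stmts

/-!
# Squad RFK, module LIP: the potential of a bounded function is Lipschitz (helper18)
-/

set_option autoImplicit false

open MeasureTheory Set Pool.Agent.Helper19_LogPot
open scoped ENNReal Topology

namespace Pool.Agent.RFK.H18

theorem abs_log_sub_le {a b : ℝ} (ha : 0 < a) (hb : 0 < b) :
    |Real.log a - Real.log b| ≤ |a - b| * (a⁻¹ + b⁻¹) := by
  have h1 : Real.log a - Real.log b ≤ |a - b| * (a⁻¹ + b⁻¹) := by
    rw [← Real.log_div ha.ne' hb.ne']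
    have h2 := Real.log_le_sub_one_of_pos (div_pos ha hb)
    have h3 : a / b - 1 = (a - b) * b⁻¹ := by field_simp
    rw [h3] at h2
    have h4 : (a - b) * b⁻¹ ≤ |a - b| * b⁻¹ :=
      mul_le_mul_of_nonneg_right (le_abs_self _) (by positivity)
    have h5 : 0 ≤ |a - b| * a⁻¹ := by positivity
    linarith
  have h1' : Real.log b - Real.log a ≤ |a - b| * (a⁻¹ + b⁻¹) := by
    rw [← Real.log_div hb.ne' ha.ne']
    have h2 := Real.log_le_sub_one_of_pos (div_pos hb ha)
    have h3 : b / a - 1 = (b - a) * a⁻¹ := by field_simp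
    rw [h3] at h2
    have h4 : (b - a) * a⁻¹ ≤ |a - b| * a⁻¹ := by
      rw [abs_sub_comm]
      exact mul_le_mul_of_nonneg_right (le_abs_self _) (by positivity)
    have h5 : 0 ≤ |a - b| * b⁻¹ := by positivity
    linarith
  rw [abs_le]
  constructor <;> linarith

/-- `‖z‖⁻¹` near `0` -/
noncomputable def F (z : ℂ) : ℝ := (Metric.ball (0 : ℂ) 1).indicator (fun z => ‖z‖⁻¹) z

theorem F_int : Integrable F := by
  have h := integrableOn_inv_norm 1
  exact (integrable_indicator_iff Metric.isOpen_ball.measurableSet).mpr h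

theorem F_nonneg (z : ℂ) : 0 ≤ F z := by
  unfold F
  exact indicator_nonneg (fun z _ => by positivity) z

theorem inv_le_F (z : ℂ) : ‖z‖⁻¹ ≤ 1 + F z := by
  unfold F
  by_cases hz : z ∈ Metric.ball (0 : ℂ) 1
  · rw [indicator_of_mem hz]
    linarith
  · rw [indicator_of_notMem hz]
    rw [mem_ball_zero_iff, not_lt] at hz
    have := inv_le_one_of_one_le₀ hz
    linarith

variable {E : Set ℂ}

theorem F_sub_int (x : ℂ) : Integrable fun y => F (x - y) := F_int.comp_sub_left x

theorem majo_int (hb : Bornology.IsBounded E) (x : ℂ) :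
    IntegrableOn (fun y => 1 + F (x - y)) E := by
  have hfin : volume E ≠ ∞ := hb.measure_lt_top.ne
  exact (integrableOn_const hfin).add (F_sub_int x).integrableOn

theorem majo_le (hb : Bornology.IsBounded E) (x : ℂ) :
    ∫ y in E, (1 + F (x - y)) ≤ volume.real E + ∫ z, F z := by
  have hfin : volume E ≠ ∞ := hb.measure_lt_top.ne
  have hc : IntegrableOn (fun _ : ℂ => (1 : ℝ)) E := integrableOn_const hfin
  rw [integral_add hc (F_sub_int x).integrableOn]
  have h1 : ∫ y in E, F (x - y) ≤ ∫ y, F (x - y) :=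
    setIntegral_le_integral (F_sub_int x) (Filter.Eventually.of_forall fun y => F_nonneg _)
  rw [integral_sub_left_eq_self (fun z => F z) volume x] at h1
  have h2 : ∫ _ in E, (1 : ℝ) = volume.real E := by
    rw [setIntegral_const, smul_eq_mul, mul_one]
  rw [h2]
  linarith

theorem log_u_int (hb : Bornology.IsBounded E) {u : ℂ → ℝ} {C : ℝ}
    (hu : MemLp u 2 (volume.restrict E)) (hC : ∀ᵐ x ∂(volume.restrict E), |u x| ≤ C) (x : ℂ) :
    IntegrableOn (fun y => Real.log ‖x - y‖ * u y) E := by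
  obtain ⟨R, hR⟩ := hb.subset_ball (0 : ℂ)
  set R' := max R (‖x‖ + 1) with hR'
  have hE : E ⊆ Metric.ball 0 R' := hR.trans (Metric.ball_subset_ball (le_max_left _ _))
  have hx : x ∈ Metric.ball (0 : ℂ) R' := by
    rw [mem_ball_zero_iff]
    have := le_max_right R (‖x‖ + 1)
    linarith
  have h1 : IntegrableOn (fun y : ℂ => Real.log ‖x - y‖) E :=
    (integrableOn_log_sub hx).mono_set hE
  exact Integrable.mul_bdd (c := C) h1 hu.aestronglyMeasurable
    (hC.mono fun y hy => by rw [Real.norm_eq_abs]; exact hy)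

/-- module LIP -/
theorem lip : LipStmt := by
  intro E u C _ hb hu hC
  set M : ℝ := volume.real E + ∫ z, F z with hM
  have hM0 : 0 ≤ M := add_nonneg measureReal_nonneg (integral_nonneg F_nonneg)
  refine ⟨⟨2 * |C| * M, by positivity⟩, LipschitzWith.of_dist_le_mul fun x x' => ?_⟩
  rw [Real.dist_eq, dist_eq_norm]
  show |pot E u x - pot E u x'| ≤ 2 * |C| * M * ‖x - x'‖
  unfold pot
  rw [← integral_sub (log_u_int hb hu hC x) (log_u_int hb hu hC x')]
  rw [← Real.norm_eq_abs]
  have hmaj : IntegrableOn (fun y => ‖x - x'‖ * |C| * ((1 + F (x - y)) + (1 + F (x' - y)))) E :=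
    ((majo_int hb x).add (majo_int hb x')).const_mul _
  have hae : ∀ᵐ y ∂(volume.restrict E), y ≠ x ∧ y ≠ x' := by
    have h1 : ∀ᵐ y ∂(volume.restrict E), y ≠ x := by
      refine ae_restrict_of_ae ?_
      simp [ae_iff]
    have h2 : ∀ᵐ y ∂(volume.restrict E), y ≠ x' := by
      refine ae_restrict_of_ae ?_
      simp [ae_iff]
    exact h1.and h2
  have hle : ∀ᵐ y ∂(volume.restrict E), ‖Real.log ‖x - y‖ * u y - Real.log ‖x' - y‖ * u y‖
      ≤ ‖x - x'‖ * |C| * ((1 + F (x - y)) + (1 + F (x' - y))) := by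
    filter_upwards [hae, hC] with y hy hCy
    have ha : 0 < ‖x - y‖ := norm_pos_iff.mpr (sub_ne_zero.mpr hy.1.symm)
    have hb' : 0 < ‖x' - y‖ := norm_pos_iff.mpr (sub_ne_zero.mpr hy.2.symm)
    rw [← sub_mul, norm_mul, Real.norm_eq_abs, Real.norm_eq_abs]
    have h1 := abs_log_sub_le ha hb'
    have h2 : |‖x - y‖ - ‖x' - y‖| ≤ ‖x - x'‖ := by
      have := abs_norm_sub_norm_le (x - y) (x' - y)
      rwa [sub_sub_sub_cancel_right] at this
    have h3 : |u y| ≤ |C| := hCy.trans (le_abs_self C)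
    have h4 := inv_le_F (x - y)
    have h5 := inv_le_F (x' - y)
    have h6 : |Real.log ‖x - y‖ - Real.log ‖x' - y‖|
        ≤ ‖x - x'‖ * ((1 + F (x - y)) + (1 + F (x' - y))) := by
      refine h1.trans (mul_le_mul h2 (add_le_add h4 h5) (by positivity) (norm_nonneg _))
    calc _ ≤ ‖x - x'‖ * ((1 + F (x - y)) + (1 + F (x' - y))) * |C| :=
          mul_le_mul h6 h3 (abs_nonneg _) ((abs_nonneg _).trans h6)
      _ = _ := by ring
  refine (norm_integral_le_of_norm_le hmaj hle).trans ?_
  rw [integral_const_mul, integral_add (majo_int hb x) (majo_int hb x')]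
  have h1 := majo_le hb x
  have h2 := majo_le hb x'
  have h3 : 0 ≤ ‖x - x'‖ * |C| := by positivity
  calc ‖x - x'‖ * |C| * ((∫ y in E, (1 + F (x - y))) + ∫ y in E, (1 + F (x' - y)))
      ≤ ‖x - x'‖ * |C| * (M + M) := mul_le_mul_of_nonneg_left (add_le_add h1 h2) h3
    _ = _ := by ring

end Pool.Agent.RFK.H18
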